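import Pool.Agent.W2helper16.GL.MainOf
import Pool.Agent.W2helper19.GL.LB
import Pool.Agent.W2helper68.GL.Rat
import Pool.Agent.W2helper88.GL.Bas
import Pool.Agent.W2helper93.GL.La5

/-!
# The sign conjecture and the Lie algebra of endomorphisms of a motive

`C` is a `ℚ`-linear rigid symmetric monoidal category with `End(1) = ℚ` and `R` is a symmetric
monoidal additive functor to finite dimensional super vector spaces over a field `K`, for example
the category of Chow or homological motives over a perfect field with de Rham or rational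
crystalline cohomology.
-/

set_option autoImplicit false

open CategoryTheory Limits MonoidalCategory

namespace Pool.Agent.Results.MP_56c18a_ag.LieAlgebraAction

open Pool.Agent.Y112.SR Pool.Agent.Y112.SC Pool.Agent.Y112.KD Pool.Agent.W2helper16.GL

universe u v w

theorem result {C : Type u} [Category.{v} C] [Preadditive C] [Linear ℚ C] [MonoidalCategory C]
    [MonoidalPreadditive C] [MonoidalLinear ℚ C] [SymmetricCategory C] [RightRigidCategory C]
    {K : Type w} [Field K] (R : SuperRealisation C K) (hU : UnitQ C) (M P : C)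
    (hχ : LinearMap.trace K (R.H.obj M) (R.par M).hom ≠ 0) (Ω : M ⊗ P ⟶ M ⊗ P)
    (hΩ : IsGlAction R Ω)
    (hne : ∀ c : R.H.obj P ⟶ R.H.obj P, R.H.map Ω ≠ bx R (𝟙 (R.H.obj M)) c)
    (hP : R.CPlus P) : R.CPlus M :=
  main_of R Pool.Agent.W2helper19.GL.la1 Pool.Agent.W2helper19.GL.la2
    Pool.Agent.W2helper19.GL.la3 Pool.Agent.W2helper19.GL.la4 Pool.Agent.W2helper93.GL.p_la5
    Pool.Agent.W2helper68.GL.p_rat Pool.Agent.W2helper88.GL.p_bas hU M P hχ Ω hΩ hne hP

end Pool.Agent.Results.MP_56c18a_ag.LieAlgebraAction
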