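import Pool.Agent.W2helper37.SG.FinalO

/-!
# The sign conjecture for orthosymplectic tensor constructions

`C` is a `ℚ`-linear rigid symmetric monoidal category with `End(1) = ℚ` and `R` is a symmetric
monoidal additive functor to finite dimensional super vector spaces over a field `K`, for example
the category of Chow or homological motives over a perfect field with de Rham or rational
crystalline cohomology.

`M` is an object with a symmetric form `b : M ⊗ M ⟶ L` and a dual form `c : L ⟶ M ⊗ M`, with values in
an even line `L`. Example: `M = h(X)` for a smooth projective variety `X` of dimension `d`,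
`L = h²ᵈ(X)`, `b` the cup product, `c` the class of the diagonal.

`pw M N n` is `M ⊗ (M ⊗ (... ⊗ N))` with `n` factors `M` (for `M = h(X)`, `N = 1` this is `h(Xⁿ)`). `P` is a
direct summand of it (by `i` and `r`) whose projector `r ≫ i` belongs to the Brauer algebra, that is,
is generated by permutations of the factors and by the endomorphism `b ≫ c` of two neighbouring
factors (for `h(Xⁿ)`: by permutations and diagonal classes), or more generally whose realisation is
stable under the Lie algebra `osp(M)` of the form.

If `C⁺(P)` holds, then `C⁺(M)` holds or the odd part of `osp(M)` acts by zero on `H(P)`. If `H(N)` is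
purely even (for example `N = 1`), then `H(P)` is purely even, or `C⁺(P)` is equivalent to `C⁺(M)`.
-/

set_option autoImplicit false

open CategoryTheory Limits MonoidalCategory

namespace Pool.Agent.Results.MP_56c18a_ag.OrthosymplecticConstructions

open Pool.Agent.Y112.SR Pool.Agent.Y112.SC Pool.Agent.W2helper37.SG

universe u v w

theorem result {C : Type u} [Category.{v} C] [Preadditive C] [Linear ℚ C] [MonoidalCategory C]
    [MonoidalPreadditive C] [MonoidalLinear ℚ C] [SymmetricCategory C] [RightRigidCategory C]
    {K : Type w} [Field K] (R : SuperRealisation C K) (hU : UnitQ C) (M L N P : C)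
    (b : M ⊗ M ⟶ L) (c : L ⟶ M ⊗ M) (hb : Form R M L b c) (n : ℕ)
    (i : P ⟶ pw M N n) (r : pw M N n ⟶ P) (hir : i ≫ r = 𝟙 P)
    (hs : BrauerO M N (b ≫ c) n (r ≫ i) ∨
      R.H.map (M ◁ (r ≫ i) ≫ omO M N (b ≫ c) n) = R.H.map (omO M N (b ≫ c) n ≫ M ◁ (r ≫ i))) :
    (R.CPlus P → R.CPlus M ∨ OddTrivialO R M N (b ≫ c) n i r) ∧
      (R.par N = 𝟙 _ → R.par P = 𝟙 _ ∨ (R.CPlus P ↔ R.CPlus M)) :=
  mainO R pieces piecesO hU hb hir
    (hs.elim (brauerO_equivariant R hb (r ≫ i)) id)

end Pool.Agent.Results.MP_56c18a_ag.OrthosymplecticConstructions
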