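import Pool.Agent.W2helper37.SG.Final

/-!
# The sign conjecture for mixed tensor constructions

`C` is a `ℚ`-linear rigid symmetric monoidal category with `End(1) = ℚ` and `R` is a symmetric
monoidal additive functor to finite dimensional super vector spaces over a field `K`, for example
the category of Chow or homological motives over a perfect field with de Rham or rational
crystalline cohomology.

`mix M N l` is the tensor product `X₁ ⊗ (X₂ ⊗ (... ⊗ N))`, where each `X_j` is `M` or its dual. `P` is a
direct summand of it (by `i` and `r`) whose projector `r ≫ i` is a rational combination of composites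
of symmetries, evaluations and coevaluations of `M` (an idempotent of the walled Brauer algebra), or
more generally whose realisation is stable under the Lie algebra `gl(M) = M ⊗ Mᘁ`.

If `C⁺(P)` holds, then `C⁺(M)` holds or the odd part of `gl(M)` acts by zero on `H(P)`. If `H(N)` is
purely even (for example `N = 1`), then `H(P)` is purely even, or purely odd, or `C⁺(P)` is equivalent
to `C⁺(M)`. The Euler characteristic of `M` is arbitrary.
-/

set_option autoImplicit false

open CategoryTheory Limits MonoidalCategory

namespace Pool.Agent.Results.MP_56c18a_ag.TensorConstructions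

open Pool.Agent.Y112.SR Pool.Agent.Y112.SC Pool.Agent.W2helper37.SG

universe u v w

theorem result {C : Type u} [Category.{v} C] [Preadditive C] [Linear ℚ C] [MonoidalCategory C]
    [MonoidalPreadditive C] [MonoidalLinear ℚ C] [SymmetricCategory C] [RightRigidCategory C]
    {K : Type w} [Field K] (R : SuperRealisation C K) (hU : UnitQ C) (M N P : C) (l : List Bool)
    (i : P ⟶ mix M N l) (r : mix M N l ⟶ P) (hir : i ≫ r = 𝟙 P)
    (hs : Brauer M N l l (r ≫ i) ∨
      R.H.map (M ◁ (r ≫ i) ≫ om M N l) = R.H.map (om M N l ≫ M ◁ (r ≫ i))) :
    (R.CPlus P → R.CPlus M ∨ OddTrivial R M N l i r) ∧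
      (R.par N = 𝟙 _ → R.par P = 𝟙 _ ∨ R.par P = -𝟙 _ ∨ (R.CPlus P ↔ R.CPlus M)) :=
  main R pieces hU ⟨hir, hs.elim (brauer_equivariant R M N l l (r ≫ i)) id⟩

end Pool.Agent.Results.MP_56c18a_ag.TensorConstructions
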